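import Pool.Agent.Y229.MS.Stm
import Pool.Agent.W375.MG.Fin

/-!
# Elimination: from `f + y z` and `f + y z + y' z'` to `f`
-/

set_option autoImplicit false

namespace Pool.Agent.Y229.MS

open Pool.Agent.W428.MOT
open Pool.Agent.W375.MG (JetG zetaG Good)
open Pool.Agent.W63.MTFin (mapMeas geo_mul X_mem C_mem L_mul)

section
variable {R : Type} [CommRing R]

lemma cancel_one_sub {A B : PowerSeries R}
    (h : (1 - PowerSeries.X) * A = (1 - PowerSeries.X) * B) : A = B := by
  have h1 : (PowerSeries.mk 1 : PowerSeries R) * (1 - PowerSeries.X) = 1 :=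
    PowerSeries.mk_one_mul_one_sub_eq_one R
  calc A = (PowerSeries.mk 1 * (1 - PowerSeries.X)) * A := by rw [h1, one_mul]
    _ = PowerSeries.mk 1 * ((1 - PowerSeries.X) * A) := by ring
    _ = PowerSeries.mk 1 * ((1 - PowerSeries.X) * B) := by rw [h]
    _ = (PowerSeries.mk 1 * (1 - PowerSeries.X)) * B := by ring
    _ = B := by rw [h1, one_mul]

lemma rescale_X' (L : R) : PowerSeries.rescale L (PowerSeries.X : PowerSeries R) =
    PowerSeries.C L * PowerSeries.X := by
  ext n
  rw [PowerSeries.coeff_rescale, PowerSeries.coeff_C_mul, PowerSeries.coeff_X]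
  split_ifs with h
  · rw [h, pow_one]
  · rw [mul_zero, mul_zero]

lemma rescale_C' (L a : R) : PowerSeries.rescale L (PowerSeries.C a : PowerSeries R) =
    PowerSeries.C a := by
  ext n
  rw [PowerSeries.coeff_rescale, PowerSeries.coeff_C]
  split_ifs with h
  · rw [h, pow_zero, one_mul]
  · rw [mul_zero]

/-- **The elimination.** -/
theorem elim (L Y : R) (hLY : L * Y = 1) (Z0 Z1 Z2 P0 P1 : PowerSeries R)
    (h0 : PowerSeries.rescale L Z1 * (1 - PowerSeries.X) =
      PowerSeries.C L * Z0 * (1 - PowerSeries.X) + P0)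
    (h1 : PowerSeries.rescale L Z2 * (1 - PowerSeries.X) =
      PowerSeries.C L * Z1 * (1 - PowerSeries.X) + P1)
    (h2 : PowerSeries.rescale L P1 * (1 - PowerSeries.X) =
      (PowerSeries.C L * PowerSeries.C L - PowerSeries.C L * PowerSeries.X) * P0) :
    (1 - PowerSeries.C Y * PowerSeries.X) * Z0 =
      PowerSeries.C (Y ^ 3) * ((PowerSeries.C L * PowerSeries.C L + PowerSeries.C L) *
        PowerSeries.rescale L ((1 - PowerSeries.C Y * PowerSeries.X) * Z1) -
        PowerSeries.rescale L (PowerSeries.rescale L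
          ((1 - PowerSeries.C Y * PowerSeries.X) * Z2))) := by
  have hC : PowerSeries.C L * PowerSeries.C Y = (1 : PowerSeries R) := by
    rw [← map_mul, hLY, map_one]
  have hC3 : PowerSeries.C (Y ^ 3) = (PowerSeries.C Y : PowerSeries R) ^ 3 := map_pow _ _ _
  set l : PowerSeries R := PowerSeries.C L with hl
  set y : PowerSeries R := PowerSeries.C Y with hy
  set x : PowerSeries R := PowerSeries.X with hx
  have e1 : PowerSeries.rescale L ((1 - y * x) * Z1) = (1 - x) * PowerSeries.rescale L Z1 := by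
    rw [map_mul, map_sub, map_one, map_mul, hy, rescale_C', hx, rescale_X', ← hl, ← hy, ← hx]
    linear_combination (-(x * PowerSeries.rescale L Z1)) * hC
  have e2 : PowerSeries.rescale L (PowerSeries.rescale L ((1 - y * x) * Z2)) =
      (1 - l * x) * PowerSeries.rescale L (PowerSeries.rescale L Z2) := by
    have e3 : PowerSeries.rescale L ((1 - y * x) * Z2) = (1 - x) * PowerSeries.rescale L Z2 := by
      rw [map_mul, map_sub, map_one, map_mul, hy, rescale_C', hx, rescale_X', ← hl, ← hy, ← hx]
      linear_combination (-(x * PowerSeries.rescale L Z2)) * hC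
    rw [e3, map_mul, map_sub, map_one, hx, rescale_X', ← hl, ← hx]
  have e4 : PowerSeries.rescale L (PowerSeries.rescale L Z2) * (1 - l * x) =
      l * PowerSeries.rescale L Z1 * (1 - l * x) + PowerSeries.rescale L P1 := by
    have := congrArg (PowerSeries.rescale L) h1
    rw [map_mul, map_sub, map_one, map_add, map_mul, map_mul, map_sub, map_one, hx, rescale_X',
      hl, rescale_C', ← hl, ← hx] at this
    exact this
  rw [e1, e2, hC3]
  refine cancel_one_sub ?_
  rw [← hx]
  have hy3 : y ^ 3 * l ^ 3 = 1 := by rw [← mul_pow, mul_comm y l, hC, one_pow]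
  have hy2 : y ^ 3 * l ^ 2 = y := by
    calc y ^ 3 * l ^ 2 = y * (l * y) ^ 2 := by ring
      _ = y := by rw [hC, one_pow, mul_one]
  linear_combination y ^ 3 * (1 - x) * e4 + y ^ 3 * h2 - y ^ 3 * (l * l - l * x) * h0 -
    (1 - x) * Z0 * hy3 + (1 - x) * Z0 * x * hy2
end

end Pool.Agent.Y229.MS
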