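import Pool.Agent.Y229.MS.Gr
import Pool.Agent.Y366.MS.OneA
import Pool.Agent.Y971.MS.One
import Pool.Agent.Y812.MS.Two
import Pool.Agent.Z864.MS.Three
import Pool.Agent.Y824.MS.Four
import Pool.Agent.Y405.MS.Aut

/-!
# Final theorems
-/

set_option autoImplicit false

namespace Pool.Agent.Y229.MS

open MvPolynomial Pool.Agent.H628R4.TP
open Pool.Agent.W425.ND (spa)
open Pool.Agent.W426.SM (gord IsRay)
open Pool.Agent.W803.SM (gord_le exists_gord)
open Pool.Agent.W425.SM (Ind)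
open Pool.Agent.W749.JI (fam)
open Pool.Agent.Y229.RE (ex)
open Pool.Agent.W428.MOT (Pt Constr ratRing Lu MK zeta)
open Pool.Agent.W375.MG (zetaG Good)

theorem t1 : TaskONE := Pool.Agent.Y971.MS.one Pool.Agent.Y366.MS.onea

/-- the descent theorem, unconditionally -/
theorem descend' {K : Type} [Field K] [CharZero K] {n : ℕ} (f : MvPolynomial (Fin n) K)
    {W : Set (Pt K (Fin n))} (hW : Constr W) {E : Set (AlgebraicClosure K)} (hE : CE E)
    (κ : ℕ) (S1 S2 : Set (ℤ × ℤ)) (hS1 : ∀ p ∈ S1, 0 < p.2) (hS2 : ∀ p ∈ S2, 0 < p.2)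
    (h1 : fst' K * zetaG (itr f κ) (Witr W κ) E ∈ ratRing K S1)
    (h2 : fst' K * zetaG (addyz (itr f κ)) (Wyz (Witr W κ)) E ∈ ratRing K S2) :
    fst' K * zetaG f W E ∈ ratRing K (shn κ S1 ∪ shn (κ + 1) S2) :=
  descend t1 Pool.Agent.Y812.MS.two f hW hE κ S1 S2 hS1 hS2 h1 h2

theorem all {k : Type} [Field k] [Algebra k ℂ] {n κ r : ℕ} (hr : 2 ≤ r)
    (f : MvPolynomial (Fin n) k) (hf : f.totalDegree ≠ 0)
    (v : Fin r → Fin (n + (κ + κ)) → ℕ) (hv : Ind v) (c : Fin r → k) (hc : ∀ j, c j ≠ 0)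
    (φ : MvPolynomial (Fin (n + (κ + κ))) k ≃ₐ[k] MvPolynomial (Fin (n + (κ + κ))) k)
    (hφ : φ (stabK f κ) = spa v c) :
    ∃ S : Finset (ℤ × ℤ),
      (∀ p ∈ S, 0 < p.2 ∧ (p = (-1, 1) ∨ (∃ a : Fin (n + (κ + κ)) → ℕ, IsRay v a ∧
          0 < gord v a ∧ p = (-((∑ i, a i : ℕ) : ℤ) + κ * (gord v a : ℤ), (gord v a : ℤ))) ∨
          ∃ a : Fin (n + (κ + κ) + 2) → ℕ, IsRay (exyz v) a ∧
          0 < gord (exyz v) a ∧ p = (-((∑ i, a i : ℕ) : ℤ) + ((κ + 1 : ℕ) : ℤ) *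
            (gord (exyz v) a : ℤ), (gord (exyz v) a : ℤ))) ∧
        ∀ b : Polynomial ℂ, IsBFunction (map (algebraMap k ℂ) f) b →
          b.eval ((p.1 : ℂ) / p.2) = 0) ∧
      ∀ (K : Type) [Field K] [Algebra k K],
        (∀ x : Fin n → K, zeta (map (algebraMap k K) f) x ∈ ratRing K S) ∧
        ∀ (W : Set (Pt K (Fin n))) (E : Set (AlgebraicClosure K)), Constr W → Good E →
        zetaG (map (algebraMap k K) f) W E ∈ ratRing K S := by
  obtain ⟨S, hS, hz⟩ := main t1 Pool.Agent.Y812.MS.two Pool.Agent.Z864.MS.three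
    Pool.Agent.Y824.MS.four Pool.Agent.Y405.MS.ext Pool.Agent.Y405.MS.bc Pool.Agent.Y405.MS.itr
    hr f hf v hv c hc φ hφ
  exact ⟨S, hS, fun K _ _ => ⟨fun x => Pool.Agent.W425.MM.zeta_mem _ x S
    fun W E hW hE => hz K W E hW hE, fun W E hW hE => hz K W E hW hE⟩⟩

/-- compositions -/
theorem all_comp {k : Type} [Field k] [Algebra k ℂ] {n κ r : ℕ} (hr : 2 ≤ r)
    (π : Fin r → Fin (κ + 1)) (m : Fin r → Fin (n + κ) → ℕ) (hv : Ind (ex π m))
    (a : Fin r → k) (ha : ∀ j, a j ≠ 0) (c : Fin κ → k) (hc : ∀ i, c i ≠ 0)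
    (p : Fin κ → MvPolynomial (Fin n) k)
    (hl : ∀ i : Fin κ, fam π m a i.succ = C (c i) * X (Fin.natAdd n i) -
      rename (Fin.castAdd κ) (p i)) (f : MvPolynomial (Fin n) k)
    (hff : f = aeval (Fin.append X fun i => C (c i)⁻¹ * p i) (fam π m a 0))
    (hf : f.totalDegree ≠ 0) :
    ∃ S : Finset (ℤ × ℤ),
      (∀ p ∈ S, p.1 < 0 ∧ 0 < p.2 ∧
        ∀ b : Polynomial ℂ, IsBFunction (map (algebraMap k ℂ) f) b →
          b.eval ((p.1 : ℂ) / p.2) = 0) ∧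
      ∀ (K : Type) [Field K] [Algebra k K],
        (∀ x : Fin n → K, zeta (map (algebraMap k K) f) x ∈ ratRing K S) ∧
        ∀ (W : Set (Pt K (Fin n))) (E : Set (AlgebraicClosure K)), Constr W → Good E →
        zetaG (map (algebraMap k K) f) W E ∈ ratRing K S := by
  classical
  have hkc : CharZero k := RingHom.charZero (algebraMap k ℂ)
  have hf0 : f ≠ 0 := by
    rintro rfl
    exact hf totalDegree_zero
  obtain ⟨φ, hφ⟩ := graph_phi π m a c hc p hl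
  rw [← hff] at hφ
  obtain ⟨S, hS, hz⟩ := all hr f hf (ex π m) hv a ha φ hφ
  have hpos := fun u L hL hu => ray_pos π m a c hc p hl (hff ▸ hf0) u L hL hu
  refine ⟨S, fun q hq => ⟨?_, (hS q hq).1, (hS q hq).2.2⟩, hz⟩
  rcases (hS q hq).2.1 with rfl | ⟨u, hu, hg, rfl⟩ | ⟨u, hu, hg, rfl⟩
  · norm_num
  · have h1 := hpos u (gord (ex π m) u) hg fun j => gord_le _ _ j
    show -((∑ i, u i : ℕ) : ℤ) + κ * (gord (ex π m) u : ℤ) < 0
    have h2 : ((κ * gord (ex π m) u : ℕ) : ℤ) < ((∑ i, u i : ℕ) : ℤ) := by exact_mod_cast h1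
    push_cast at h2 ⊢
    linarith
  · set L := gord (exyz (ex π m)) u with hL
    have hle : ∀ j, L ≤ ∑ i, u i * exyz (ex π m) j i := fun j => gord_le _ _ j
    have h1 := hpos (fun i => u (Fin.castAdd 2 i)) L hg (by
      intro j
      have h2 := hle j.succ
      rw [Fin.sum_univ_add] at h2
      simpa [exyz, Fin.cons_succ, Fin.append_left, Fin.append_right] using h2)
    have h3 : L ≤ ∑ i : Fin 2, u (Fin.natAdd (n + (κ + κ)) i) := by
      have h2 := hle 0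
      rw [Fin.sum_univ_add] at h2
      simpa [exyz, Fin.cons_zero, Fin.append_left, Fin.append_right] using h2
    have h4 : ∑ i, u i = ∑ i : Fin (n + (κ + κ)), u (Fin.castAdd 2 i) +
        ∑ i : Fin 2, u (Fin.natAdd (n + (κ + κ)) i) := Fin.sum_univ_add u
    have h5 : (κ + 1) * L < ∑ i, u i := by
      rw [h4, add_mul, one_mul]
      omega
    show -((∑ i, u i : ℕ) : ℤ) + ((κ + 1 : ℕ) : ℤ) * (L : ℤ) < 0
    have h6 : (((κ + 1) * L : ℕ) : ℤ) < ((∑ i, u i : ℕ) : ℤ) := by exact_mod_cast h5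
    push_cast at h6 ⊢
    linarith

end Pool.Agent.Y229.MS
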