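import Pool.Agent.Y229.MS.Main
import Pool.Agent.Y925.MS.GK

/-!
# Compositions
-/

set_option autoImplicit false

namespace Pool.Agent.Y229.MS

open MvPolynomial Pool.Agent.H628R4.TP
open Pool.Agent.W425.ND (spa)
open Pool.Agent.W426.SM (gord IsRay)
open Pool.Agent.W803.SM (gord_le)
open Pool.Agent.W425.SM (Ind)
open Pool.Agent.W749.JI (fam)
open Pool.Agent.Y229.RE (ex ex_x ex_y ex_z xv yv zv)

variable {k : Type} [Field k] {n κ r : ℕ}

theorem spa_ex (π : Fin r → Fin (κ + 1)) (m : Fin r → Fin (n + κ) → ℕ) (a : Fin r → k) :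
    spa (ex π m) a =
      rename (Fin.addCases (Fin.castAdd (κ + κ)) fun i => Fin.natAdd n (Fin.natAdd κ i))
        (fam π m a 0) +
      ∑ i : Fin κ, X (Fin.natAdd n (Fin.castAdd κ i)) *
        rename (Fin.addCases (Fin.castAdd (κ + κ)) fun i => Fin.natAdd n (Fin.natAdd κ i))
          (fam π m a i.succ) := by
  classical
  set E : Fin (n + κ) → Fin (n + (κ + κ)) :=
    Fin.addCases (Fin.castAdd (κ + κ)) fun i => Fin.natAdd n (Fin.natAdd κ i) with hE
  have hEl : ∀ i, E (Fin.castAdd κ i) = xv κ i := fun i => by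
    rw [hE]
    exact Fin.addCases_left _
  have hEr : ∀ i, E (Fin.natAdd n i) = zv n i := fun i => by
    rw [hE]
    exact Fin.addCases_right _
  -- one monomial
  have hmon : ∀ j, (∏ i, (X i : MvPolynomial (Fin (n + (κ + κ))) k) ^ ex π m j i) =
      (∏ i : Fin κ, X (yv n i) ^ (if π j = i.succ then 1 else 0)) *
        ∏ v : Fin (n + κ), X (E v) ^ m j v := by
    intro j
    rw [Fin.prod_univ_add, Fin.prod_univ_add,
      Fin.prod_univ_add (f := fun v : Fin (n + κ) =>
        (X (E v) : MvPolynomial (Fin (n + (κ + κ))) k) ^ m j v)]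
    have e1 : ∀ i : Fin n, (X (Fin.castAdd (κ + κ) i) : MvPolynomial (Fin (n + (κ + κ))) k) ^
        ex π m j (Fin.castAdd (κ + κ) i) = X (E (Fin.castAdd κ i)) ^ m j (Fin.castAdd κ i) := by
      intro i
      rw [hEl, ← ex_x π m j i]
      rfl
    have e2 : ∀ i : Fin κ, (X (Fin.natAdd n (Fin.castAdd κ i)) :
        MvPolynomial (Fin (n + (κ + κ))) k) ^ ex π m j (Fin.natAdd n (Fin.castAdd κ i)) =
        X (yv n i) ^ (if π j = i.succ then 1 else 0) := by
      intro i
      rw [← ex_y π m j i]
      rfl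
    have e3 : ∀ i : Fin κ, (X (Fin.natAdd n (Fin.natAdd κ i)) :
        MvPolynomial (Fin (n + (κ + κ))) k) ^ ex π m j (Fin.natAdd n (Fin.natAdd κ i)) =
        X (E (Fin.natAdd n i)) ^ m j (Fin.natAdd n i) := by
      intro i
      rw [hEr, ← ex_z π m j i]
      rfl
    rw [Finset.prod_congr rfl fun i _ => e1 i, Finset.prod_congr rfl fun i _ => e2 i,
      Finset.prod_congr rfl fun i _ => e3 i]
    ring
  have hren : ∀ j, rename E (C (a j) * ∏ v, X v ^ m j v) =
      C (a j) * ∏ v : Fin (n + κ), X (E v) ^ m j v := by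
    intro j
    simp only [map_mul, map_prod, map_pow, rename_X, rename_C]
  unfold fam spa
  simp only [map_sum, hren, hmon]
  have hsplit : ∀ j : Fin r, C (a j) * ((∏ i : Fin κ, X (yv n i) ^ (if π j = i.succ then 1 else 0)) *
      ∏ v : Fin (n + κ), X (E v) ^ m j v) =
      (if π j = 0 then C (a j) * ∏ v : Fin (n + κ), X (E v) ^ m j v else 0) +
      ∑ i : Fin κ, (if π j = i.succ then X (yv n i) * (C (a j) *
        ∏ v : Fin (n + κ), (X (E v) : MvPolynomial (Fin (n + (κ + κ))) k) ^ m j v) else 0) := by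
    intro j
    rcases Fin.eq_zero_or_eq_succ (π j) with h | ⟨i0, h⟩
    · rw [if_pos h, Finset.sum_eq_zero fun i _ => if_neg fun h' =>
        absurd (h.symm.trans h') (Fin.succ_ne_zero i).symm, add_zero,
        Finset.prod_eq_one fun i _ => ?_, one_mul]
      rw [if_neg fun h' => absurd (h.symm.trans h') (Fin.succ_ne_zero i).symm, pow_zero]
    · rw [if_neg fun h' => absurd (h.symm.trans h') (Fin.succ_ne_zero i0), zero_add,
        Finset.sum_eq_single i0, if_pos h, Finset.prod_eq_single i0, if_pos h, pow_one]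
      · ring
      · intro i _ hi
        rw [if_neg fun h' => hi (Fin.succ_injective _ (h.symm.trans h')).symm, pow_zero]
      · intro h'
        exact absurd (Finset.mem_univ _) h'
      · intro i _ hi
        rw [if_neg fun h' => hi (Fin.succ_injective _ (h.symm.trans h')).symm]
      · intro h'
        exact absurd (Finset.mem_univ _) h'
  rw [Finset.sum_congr rfl fun j _ => hsplit j, Finset.sum_add_distrib, Finset.sum_comm,
    ← Finset.sum_filter]
  congr 1
  refine Finset.sum_congr rfl fun i _ => ?_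
  rw [← Finset.sum_filter, Finset.mul_sum]
  rfl

/-- **The automorphism for compositions.** -/
theorem graph_phi (π : Fin r → Fin (κ + 1)) (m : Fin r → Fin (n + κ) → ℕ) (a : Fin r → k)
    (c : Fin κ → k) (hc : ∀ i, c i ≠ 0) (p : Fin κ → MvPolynomial (Fin n) k)
    (hl : ∀ i : Fin κ, fam π m a i.succ = C (c i) * X (Fin.natAdd n i) -
      rename (Fin.castAdd κ) (p i)) :
    ∃ φ : MvPolynomial (Fin (n + (κ + κ))) k ≃ₐ[k] MvPolynomial (Fin (n + (κ + κ))) k,
      φ (stabK (aeval (Fin.append X fun i => C (c i)⁻¹ * p i) (fam π m a 0)) κ) =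
        spa (ex π m) a := by
  obtain ⟨ψ, hψ⟩ := Pool.Agent.Y925.MS.gk k c hc p (fam π m a 0)
  refine ⟨ψ, ?_⟩
  rw [hψ, spa_ex]
  congr 1
  refine Finset.sum_congr rfl fun i _ => ?_
  rw [hl, map_sub, map_mul, rename_C, rename_X, rename_rename]
  have e1 : (fun i => Fin.addCases (motive := fun _ => Fin (n + (κ + κ))) (Fin.castAdd (κ + κ))
      (fun i => Fin.natAdd n (Fin.natAdd κ i)) i : Fin (n + κ) → Fin (n + (κ + κ))) ∘
        Fin.castAdd κ = Fin.castAdd (κ + κ) := by
    funext j
    simp only [Function.comp_apply, Fin.addCases_left]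
  rw [e1]
  simp only [Fin.addCases_right]

/-- **Negativity.** -/
theorem ray_pos [CharZero k] (π : Fin r → Fin (κ + 1)) (m : Fin r → Fin (n + κ) → ℕ) (a : Fin r → k)
    (c : Fin κ → k) (hc : ∀ i, c i ≠ 0) (p : Fin κ → MvPolynomial (Fin n) k)
    (hl : ∀ i : Fin κ, fam π m a i.succ = C (c i) * X (Fin.natAdd n i) -
      rename (Fin.castAdd κ) (p i))
    (hf : aeval (Fin.append X fun i => C (c i)⁻¹ * p i) (fam π m a 0) ≠
      (0 : MvPolynomial (Fin n) k))
    (u : Fin (n + (κ + κ)) → ℕ) (L : ℕ) (hL : 0 < L) (hu : ∀ j, L ≤ ∑ i, u i * ex π m j i) :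
    κ * L < ∑ i, u i := by
  classical
  -- the value on the exponents of a member
  have hval : ∀ j, ∑ i, u i * ex π m j i = ∑ i : Fin n, u (xv κ i) * m j (Fin.castAdd κ i) +
      (∑ i : Fin κ, (if π j = i.succ then u (yv n i) else 0) +
        ∑ i : Fin κ, u (zv n i) * m j (Fin.natAdd n i)) := by
    intro j
    rw [Fin.sum_univ_add, Fin.sum_univ_add]
    congr 1
    · refine Finset.sum_congr rfl fun i _ => ?_
      rw [← ex_x π m j i]
      rfl
    · congr 1
      · refine Finset.sum_congr rfl fun i _ => ?_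
        have h1 := ex_y π m j i
        unfold yv at h1 ⊢
        rw [h1]
        split_ifs
        · rw [mul_one]
        · rw [mul_zero]
      · refine Finset.sum_congr rfl fun i _ => ?_
        rw [← ex_z π m j i]
        rfl
  -- membership of a monomial in `fam`
  have hmem : ∀ (i : Fin (κ + 1)) (w : Fin (n + κ) →₀ ℕ), coeff w (fam π m a i) ≠ 0 →
      ∃ j, π j = i ∧ m j = w := by
    intro i w hw
    unfold fam at hw
    rw [coeff_sum] at hw
    obtain ⟨j, hj, hne⟩ := Finset.exists_ne_zero_of_sum_ne_zero hw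
    refine ⟨j, (Finset.mem_filter.1 hj).2, ?_⟩
    have h2 : (C (a j) * ∏ v, X v ^ m j v : MvPolynomial (Fin (n + κ)) k) =
        monomial (Finsupp.equivFunOnFinite.symm (m j)) (a j) := by
      rw [monomial_eq, Finsupp.prod_fintype _ _ fun i => pow_zero _]
      rfl
    rw [h2, coeff_monomial] at hne
    by_contra hcon
    rw [if_neg] at hne
    · exact hne rfl
    · intro h3
      apply hcon
      rw [← h3]
      rfl
  -- `y_i z_i`
  have hyz : ∀ i : Fin κ, L ≤ u (yv n i) + u (zv n i) := by
    intro i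
    obtain ⟨j, hj1, hj2⟩ := hmem i.succ (Finsupp.single (Fin.natAdd n i) 1) (by
      rw [hl, coeff_sub, coeff_C_mul, coeff_X, if_pos rfl, mul_one,
        coeff_rename_eq_zero _ _ _ ?_, sub_zero]
      · exact hc i
      · intro w hw
        exfalso
        have h1 := DFunLike.congr_fun hw (Fin.natAdd n i)
        rw [Finsupp.single_eq_same, Finsupp.mapDomain_of_notMem_range] at h1
        · exact absurd h1 (by norm_num)
        · rintro ⟨i', hi'⟩
          have := congrArg Fin.val hi'
          simp only [Fin.val_castAdd, Fin.val_natAdd] at this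
          omega)
    have h1 := hu j
    rw [hval j, hj1] at h1
    have h2 : ∑ i' : Fin n, u (xv κ i') * m j (Fin.castAdd κ i') = 0 := by
      refine Finset.sum_eq_zero fun i' _ => ?_
      rw [hj2, Finsupp.single_eq_of_ne, mul_zero]
      intro h
      have := congrArg Fin.val h
      simp only [Fin.val_castAdd, Fin.val_natAdd] at this
      omega
    have h3 : ∑ i' : Fin κ, (if i.succ = i'.succ then u (yv n i') else 0) = u (yv n i) := by
      rw [Finset.sum_eq_single i, if_pos rfl]
      · intro i' _ hi'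
        rw [if_neg fun h => hi' (Fin.succ_injective _ h).symm]
      · intro h
        exact absurd (Finset.mem_univ _) h
    have h4 : ∑ i' : Fin κ, u (zv n i') * m j (Fin.natAdd n i') = u (zv n i) := by
      rw [Finset.sum_eq_single i, hj2, Finsupp.single_eq_same, mul_one]
      · intro i' _ hi'
        rw [hj2, Finsupp.single_eq_of_ne, mul_zero]
        intro h
        apply hi'
        have := congrArg Fin.val h
        simp only [Fin.val_natAdd] at this
        exact Fin.ext (by omega)
      · intro h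
        exact absurd (Finset.mem_univ _) h
    rw [h2, h3, h4] at h1
    omega
  have htot : ∑ i, u i = ∑ i : Fin n, u (xv κ i) + (∑ i : Fin κ, u (yv n i) +
      ∑ i : Fin κ, u (zv n i)) := by
    rw [Fin.sum_univ_add, Fin.sum_univ_add]
    rfl
  have hsum : κ * L ≤ ∑ i : Fin κ, (u (yv n i) + u (zv n i)) := by
    have := Finset.sum_le_sum fun i (_ : i ∈ (Finset.univ : Finset (Fin κ))) => hyz i
    simpa using this
  rw [Finset.sum_add_distrib] at hsum
  by_contra hcon
  have hx0 : ∑ i : Fin n, u (xv κ i) = 0 := by omega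
  have hx : ∀ i, u (xv κ i) = 0 := fun i => Finset.sum_eq_zero_iff.1 hx0 i (Finset.mem_univ i)
  have heq : ∀ i : Fin κ, u (yv n i) + u (zv n i) = L := by
    have h1 : ∑ i : Fin κ, (u (yv n i) + u (zv n i)) = ∑ i : Fin κ, L := by
      rw [Finset.sum_add_distrib, Finset.sum_const, Finset.card_univ, Fintype.card_fin,
        smul_eq_mul]
      omega
    have h2 := (Finset.sum_eq_sum_iff_of_le fun i (_ : i ∈ (Finset.univ : Finset (Fin κ))) =>
      hyz i).1 h1.symm
    exact fun i => (h2 i (Finset.mem_univ i)).symm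
  -- `p_i ≠ 0` gives `u (z_i) = 0`
  have hz : ∀ i : Fin κ, p i ≠ 0 → u (zv n i) = 0 := by
    intro i hp
    obtain ⟨w, hw⟩ := ne_zero_iff.1 hp
    obtain ⟨j, hj1, hj2⟩ := hmem i.succ (w.mapDomain (Fin.castAdd κ)) (by
      rw [hl, coeff_sub, coeff_C_mul, coeff_X, if_neg, mul_zero, zero_sub,
        coeff_rename_mapDomain _ (Fin.castAdd_injective _ _)]
      · exact neg_ne_zero.2 hw
      · intro h
        have h1 := DFunLike.congr_fun h (Fin.natAdd n i)
        rw [Finsupp.single_eq_same, Finsupp.mapDomain_of_notMem_range] at h1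
        · exact absurd h1 (by norm_num)
        · rintro ⟨i', hi'⟩
          have := congrArg Fin.val hi'
          simp only [Fin.val_castAdd, Fin.val_natAdd] at this
          omega)
    have h1 := hu j
    rw [hval j, hj1] at h1
    have h2 : ∑ i' : Fin n, u (xv κ i') * m j (Fin.castAdd κ i') = 0 :=
      Finset.sum_eq_zero fun i' _ => by rw [hx, zero_mul]
    have h3 : ∑ i' : Fin κ, (if i.succ = i'.succ then u (yv n i') else 0) = u (yv n i) := by
      rw [Finset.sum_eq_single i, if_pos rfl]
      · intro i' _ hi'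
        rw [if_neg fun h => hi' (Fin.succ_injective _ h).symm]
      · intro h
        exact absurd (Finset.mem_univ _) h
    have h4 : ∑ i' : Fin κ, u (zv n i') * m j (Fin.natAdd n i') = 0 := by
      refine Finset.sum_eq_zero fun i' _ => ?_
      rw [hj2, Finsupp.mapDomain_of_notMem_range, mul_zero]
      rintro ⟨i'', hi'⟩
      have := congrArg Fin.val hi'
      simp only [Fin.val_castAdd, Fin.val_natAdd] at this
      omega
    rw [h2, h3, h4] at h1
    have := heq i
    omega
  -- a monomial of `Φ` without the variables `z_i`, `p_i = 0`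
  apply hf
  rw [(fam π m a 0).as_sum, map_sum]
  refine Finset.sum_eq_zero fun w hw => ?_
  obtain ⟨j, hj1, hj2⟩ := hmem 0 w (mem_support_iff.1 hw)
  have h1 := hu j
  rw [hval j, hj1] at h1
  have h2 : ∑ i' : Fin n, u (xv κ i') * m j (Fin.castAdd κ i') = 0 :=
    Finset.sum_eq_zero fun i' _ => by rw [hx, zero_mul]
  have h3 : ∑ i' : Fin κ, (if (0 : Fin (κ + 1)) = i'.succ then u (yv n i') else 0) = 0 :=
    Finset.sum_eq_zero fun i' _ => by rw [if_neg (Fin.succ_ne_zero i').symm]
  rw [h2, h3, zero_add, zero_add] at h1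
  obtain ⟨i, -, hi⟩ := Finset.exists_ne_zero_of_sum_ne_zero
    (show ∑ i' : Fin κ, u (zv n i') * m j (Fin.natAdd n i') ≠ 0 by omega)
  have hi1 : u (zv n i) ≠ 0 := left_ne_zero_of_mul hi
  have hi2 : m j (Fin.natAdd n i) ≠ 0 := right_ne_zero_of_mul hi
  have hp : p i = 0 := by
    by_contra h
    exact hi1 (hz i h)
  rw [aeval_monomial, Finsupp.prod_fintype _ _ fun i => pow_zero _]
  have h5 : ∏ i, (Fin.append X (fun i => C (c i)⁻¹ * p i) i : MvPolynomial (Fin n) k) ^ w i = 0 := by
    refine Finset.prod_eq_zero (Finset.mem_univ (Fin.natAdd n i)) ?_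
    rw [Fin.append_right, hp, mul_zero, ← hj2, zero_pow hi2]
  rw [h5, mul_zero]

end Pool.Agent.Y229.MS
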