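import Pool.Agent.TH216.MF.MotL

/-!
# Project MS: the refined theorem of the library
-/

set_option autoImplicit false

namespace Pool.Agent.Y229.MS

open MvPolynomial Pool.Agent.TH216.MC
open Pool.Agent.W426.SM (gord IsRay)
open Pool.Agent.W428.MOT (Pt Constr ratRing sp Lu MK)
open Pool.Agent.W375.MG (zetaG Good)

/-- (FOUR) the geometric factor of the strict transform -/
def TaskFOUR : Prop :=
  ∀ {n r : ℕ} (m : Fin r → Fin n → ℕ), 0 < r → ∀ Bad : ℚ → Prop, HB m Bad →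
    ∃ S : Finset (ℤ × ℤ),
      (∀ p ∈ S, ∃ a : Fin n → ℕ, IsRay m a ∧ 0 < gord m a ∧
        ¬ Bad (((∑ i, a i : ℕ) : ℚ) / gord m a) ∧
        p = (-((∑ i, a i : ℕ) : ℤ), (gord m a : ℤ))) ∧
      ∀ (K : Type) [Field K] [CharZero K] (c : Fin r → K), Pool.Agent.W425.MM.Mot.NonG m c →
        (∀ j, c j ≠ 0) →
        ∀ (W : Set (Pt K (Fin n))) (E : Set (AlgebraicClosure K)), Constr W → Good E →
          (1 - PowerSeries.C (((Lu K)⁻¹ : (MK K)ˣ) : MK K) * PowerSeries.X) *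
            zetaG (sp 0 m c 1) W E ∈ ratRing K S

end Pool.Agent.Y229.MS
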