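import Pool.Agent.Y229.MS.Stm
import Pool.Agent.Y229.MS.Stm4

/-!
# Affinely independent exponents and `G + y z`
-/

set_option autoImplicit false

namespace Pool.Agent.Y229.MS

open MvPolynomial Pool.Agent.H628R4.TP Pool.Agent.W425.MM Pool.Agent.W425.GN
open Pool.Agent.W425.ND (spa)
open Pool.Agent.W426.SM (gord IsRay)
open Pool.Agent.W425.SV (Kil1)
open Pool.Agent.W425.SM (Ind)
open Pool.Agent.TH216.MC (HB hb_ind pos_of_ray)
open Pool.Agent.TH216.MF (RelG Spread relG_of_relM nonD_of_ind)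
open Pool.Agent.W428.MOT (Pt Constr ratRing sp Lu MK)
open Pool.Agent.W375.MG (zetaG Good)

section
variable {M r : ℕ}

/-- the exponents of `G + y z` -/
def exyz (v : Fin r → Fin M → ℕ) : Fin (r + 1) → Fin (M + 2) → ℕ :=
  Fin.cons (Fin.append (fun _ => 0) (fun _ => 1)) fun j => Fin.append (v j) (fun _ => 0)

/-- the coefficients of `G + y z` -/
def cyz {F : Type} [Field F] (c : Fin r → F) : Fin (r + 1) → F := Fin.cons 1 c

theorem spa_addyz {F : Type} [Field F] (v : Fin r → Fin M → ℕ) (c : Fin r → F) :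
    spa (exyz v) (cyz c) = addyz (spa v c) := by
  unfold spa addyz exyz cyz
  rw [Fin.sum_univ_succ]
  simp only [Fin.cons_zero, Fin.cons_succ, Fin.prod_univ_add, Fin.append_left, Fin.append_right,
    pow_zero, pow_one, Finset.prod_const_one, one_mul, mul_one, map_sum, map_mul, map_prod,
    map_pow, rename_X, rename_C, C_1, Fin.prod_univ_two]
  exact add_comm _ _

theorem ind_exyz {v : Fin r → Fin M → ℕ} (hv : Ind v) : Ind (exyz v) := by
  classical
  unfold Ind at hv ⊢
  rw [affineIndependent_iff] at hv ⊢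
  intro s w hw hs j hj
  -- work with all indices
  set w' : Fin (r + 1) → ℚ := fun j => if j ∈ s then w j else 0 with hw'
  have hs1 : ∑ j, w' j = 0 := by
    rw [← hw, ← Finset.sum_filter]
    simp
  have hs2 : ∀ i, ∑ j, w' j * (exyz v j i : ℚ) = 0 := by
    intro i
    have h1 := congrFun hs i
    simp only [Finset.sum_apply, Pi.smul_apply, smul_eq_mul, Pi.zero_apply] at h1
    rw [← h1]
    simp only [hw', ite_mul, zero_mul]
    rw [← Finset.sum_filter]
    simp
  have h0 : w' 0 = 0 := by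
    have h1 := hs2 (Fin.natAdd M 0)
    rw [Fin.sum_univ_succ] at h1
    simp only [exyz, Fin.cons_zero, Fin.cons_succ, Fin.append_right, Nat.cast_one, mul_one,
      Nat.cast_zero, mul_zero, Finset.sum_const_zero, add_zero] at h1
    exact h1
  have h2 : ∑ j : Fin r, w' j.succ = 0 := by
    rw [Fin.sum_univ_succ, h0, zero_add] at hs1
    exact hs1
  have h3 : ∀ j : Fin r, w' j.succ = 0 := by
    intro j
    refine hv Finset.univ (fun j => w' j.succ) h2 ?_ j (Finset.mem_univ _)
    funext i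
    have h4 := hs2 (Fin.castAdd 2 i)
    rw [Fin.sum_univ_succ, h0, zero_mul, zero_add] at h4
    simp only [exyz, Fin.cons_succ, Fin.append_left] at h4
    simp only [Finset.sum_apply, Pi.smul_apply, smul_eq_mul, Pi.zero_apply]
    exact h4
  have h5 : w' j = 0 := by
    refine Fin.cases h0 h3 j
  simp only [hw', if_pos hj] at h5
  exact h5

theorem cyz_ne {F : Type} [Field F] {c : Fin r → F} (hc : ∀ j, c j ≠ 0) : ∀ j, cyz c j ≠ 0 := by
  intro j
  refine Fin.cases ?_ (fun j => ?_) j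
  · show (1 : F) ≠ 0
    exact one_ne_zero
  · exact hc j

theorem cyz_map {F L : Type} [Field F] [Field L] (g : F →+* L) (c : Fin r → F) :
    (fun j => g (cyz c j)) = cyz fun j => g (c j) := by
  funext j
  refine Fin.cases ?_ (fun j => ?_) j
  · show g 1 = 1
    exact map_one g
  · rfl

end

variable {N r : ℕ}

/-- **Affinely independent exponents, refined.** -/
theorem ind_fst (h4 : TaskFOUR) {k : Type} [Field k] [Algebra k ℂ] (hr : 2 ≤ r)
    (v : Fin r → Fin N → ℕ) (hv : Ind v) (c : Fin r → k) (hc : ∀ j, c j ≠ 0)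
    (P0 : Polynomial ℂ → Prop) (hP0 : ∀ P, P0 P → IsBFunction
      (spa v (fun j => algebraMap k ℂ (c j))) ((Polynomial.X + 1) * P)) :
    ∃ S : Finset (ℤ × ℤ),
      (∀ p ∈ S, p.1 < 0 ∧ 0 < p.2 ∧ (∃ a : Fin N → ℕ, IsRay v a ∧ 0 < gord v a ∧
        p = (-((∑ i, a i : ℕ) : ℤ), (gord v a : ℤ))) ∧
        ∀ P, P0 P → P.eval ((p.1 : ℂ) / p.2) = 0) ∧
      ∀ (K : Type) [Field K] [Algebra k K] (W : Set (Pt K (Fin N)))
        (E : Set (AlgebraicClosure K)), Constr W → Good E →
        (1 - PowerSeries.C (((Lu K)⁻¹ : (MK K)ˣ) : MK K) * PowerSeries.X) *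
          zetaG (spa v (fun j => algebraMap k K (c j))) W E ∈ ratRing K S := by
  classical
  have hr0 : 0 < r := by omega
  have hkc : CharZero k := RingHom.charZero (algebraMap k ℂ)
  set f : MvPolynomial (Fin N) ℂ := spa v (fun j => algebraMap k ℂ (c j)) with hf
  have hcC : ∀ j, algebraMap k ℂ (c j) ≠ 0 := fun j => (map_ne_zero _).2 (hc j)
  have hnd : NonD v (fun j => algebraMap k ℂ (c j)) := nonD_of_ind hr0 v hv _ hcC
  have hA : ∀ P, P0 P → RelG v (Kil1 v) (Spread v) P := by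
    intro P hP
    obtain ⟨P', h1, h2⟩ := Pool.Agent.W525.SM.taskA v _ _ hr hv hcC (hP0 P hP)
    have h3 : (Polynomial.X + 1 : Polynomial ℂ) ≠ 0 := Polynomial.X_add_C_ne_zero 1
    rw [mul_left_cancel₀ h3 h1]
    exact relG_of_relM v P' h2
  have hB : HB v fun σ => ∃ P, P0 P ∧ P.eval (-(σ : ℂ)) ≠ 0 := by
    rintro J q hq e he T0 hT0 σ ⟨P, hP, hne⟩ hlog
    exact hb_ind v P (hA P hP) J q hq e he T0 hT0 σ hne hlog
  obtain ⟨S, hS, hz1⟩ := h4 v hr0 _ hB
  have hsp : ∀ {K : Type} [Field K] (c' : Fin r → K), spa v c' = sp 0 v c' 1 := by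
    intro K _ c'
    unfold sp spa
    simp
  refine ⟨S, fun p hp => ?_, ?_⟩
  · obtain ⟨a, ha, hg, hn, rfl⟩ := hS p hp
    refine ⟨pos_of_ray ha, Int.natCast_pos.2 hg, ⟨a, ha, hg, rfl⟩, fun P hP => ?_⟩
    by_contra hne
    apply hn
    refine ⟨P, hP, ?_⟩
    have e : -((((∑ i, a i : ℕ) : ℚ) / gord v a : ℚ) : ℂ) =
        ((-((∑ i, a i : ℕ) : ℤ) : ℤ) : ℂ) / ((gord v a : ℤ) : ℂ) := by
      push_cast
      ring
    rw [e]
    exact hne
  · intro K _ _ W E hW hE
    have hK : CharZero K := charZero_of_injective_algebraMap (algebraMap k K).injective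
    rw [hsp]
    refine hz1 K _ (nonG_of_nonD _ _ ?_) (fun j => (map_ne_zero _).2 (hc j)) W E hW hE
    have h4 := nonD_ext (k := k) (L := AlgebraicClosure K) _ _ hnd
    have h5 : (fun j => algebraMap K (AlgebraicClosure K) (algebraMap k K (c j))) =
        fun j => algebraMap k (AlgebraicClosure K) (c j) := by
      funext j
      rw [← IsScalarTower.algebraMap_apply]
    rw [h5]
    exact h4

end Pool.Agent.Y229.MS
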