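import Pool.Agent.Y229.MS.Step
import Pool.Agent.Y229.MS.Ind
import Pool.Agent.Y229.PG.Main

/-!
# Motivic zeta functions of stably sparse polynomials
-/

set_option autoImplicit false

namespace Pool.Agent.Y229.MS

open MvPolynomial Pool.Agent.H628R4.TP
open Pool.Agent.W425.ND (spa)
open Pool.Agent.W426.SM (gord IsRay)
open Pool.Agent.W425.SM (Ind)
open Pool.Agent.W428.MOT (Pt Constr ratRing Lu MK)
open Pool.Agent.W375.MG (zetaG Good JetG ratRing_mono)
open Pool.Agent.Y229.RE (stab)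
open Pool.Agent.Y229.PG (BecomesG becomes_global)

/-- isomorphic polynomials have the same zeta functions -/
theorem zeta_iso {K : Type} [Field K] [CharZero K] (h3 : TaskTHREE) {a b : ℕ} (hab : a = b)
    (ψ : MvPolynomial (Fin a) K ≃ₐ[K] MvPolynomial (Fin b) K) (g : MvPolynomial (Fin a) K)
    {W : Set (Pt K (Fin a))} (hW : Constr W) {E : Set (AlgebraicClosure K)} (hE : CE E) :
    zetaG (ψ g) {w | (fun i => aeval w (ψ (X i))) ∈ W} E = zetaG g W E := by
  obtain ⟨M₀, hM₀⟩ := Pool.Agent.W417.MT.K0.main K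
  ext N
  have h5 : b * N = a * N := by rw [hab]
  rw [zetaG, zetaG, PowerSeries.coeff_mk, PowerSeries.coeff_mk, ← hM₀, ← hM₀,
    h3 K _ M₀ ψ g W E hW hE N, h5]

theorem constr_pull {K : Type} [Field K] {a b : ℕ}
    (ψ : MvPolynomial (Fin a) K ≃ₐ[K] MvPolynomial (Fin b) K)
    {W : Set (Pt K (Fin a))} (hW : Constr W) :
    Constr {w : Pt K (Fin b) | (fun i => aeval w (ψ (X i))) ∈ W} :=
  hW.preimage (fun w i => aeval w (ψ (X i))) fun i => Pool.Agent.W428.MOT.IsPF.poly _

theorem map_stabK {k K : Type} [Field k] [Field K] (g : k →+* K) {n : ℕ}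
    (f : MvPolynomial (Fin n) k) (κ : ℕ) : map g (stabK f κ) = stabK (map g f) κ := by
  unfold stabK
  simp only [map_add, map_sum, map_mul, map_X, map_rename]

theorem map_spa {k K : Type} [Field k] [Field K] (g : k →+* K) {n r : ℕ} (v : Fin r → Fin n → ℕ)
    (c : Fin r → k) : map g (spa v c) = spa v fun j => g (c j) := by
  unfold spa
  simp only [map_sum, map_mul, map_prod, map_pow, map_X, map_C]

theorem spa_deg {n r : ℕ} (hr : 2 ≤ r) (v : Fin r → Fin n → ℕ) (hv : Ind v) (c : Fin r → ℂ)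
    (hc : ∀ j, c j ≠ 0) : (spa v c).totalDegree ≠ 0 := by
  classical
  have hinj : Function.Injective v := by
    intro j j' h
    refine hv.injective ?_
    rw [h]
  obtain ⟨j, hj⟩ : ∃ j, v j ≠ 0 := by
    by_contra hcon
    push Not at hcon
    have h1 : (⟨0, by omega⟩ : Fin r) = ⟨1, by omega⟩ := hinj (by rw [hcon, hcon])
    simp at h1
  intro h0
  have hco : coeff (Finsupp.equivFunOnFinite.symm (v j)) (spa v c) = c j := by
    unfold spa
    rw [coeff_sum]
    have h1 : ∀ j', coeff (Finsupp.equivFunOnFinite.symm (v j)) (C (c j') * ∏ i, X i ^ v j' i) =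
        if j' = j then c j' else 0 := by
      intro j'
      have h2 : (C (c j') * ∏ i, X i ^ v j' i : MvPolynomial (Fin n) ℂ) =
          monomial (Finsupp.equivFunOnFinite.symm (v j')) (c j') := by
        rw [monomial_eq, Finsupp.prod_fintype _ _ fun i => pow_zero _]
        rfl
      rw [h2, coeff_monomial]
      by_cases h3 : j' = j
      · rw [if_pos h3, if_pos (by rw [h3])]
      · rw [if_neg h3, if_neg fun h4 => h3 (hinj (Finsupp.equivFunOnFinite.symm.injective h4))]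
    rw [Finset.sum_congr rfl fun j' _ => h1 j', Finset.sum_ite_eq' _ j,
      if_pos (Finset.mem_univ _)]
  have hmem : Finsupp.equivFunOnFinite.symm (v j) ∈ (spa v c).support := by
    rw [mem_support_iff, hco]
    exact hc j
  have h1 := le_totalDegree hmem
  rw [h0, Nat.le_zero, Finsupp.sum_fintype _ _ fun _ => rfl] at h1
  apply hj
  funext i
  exact Finset.sum_eq_zero_iff.1 h1 i (Finset.mem_univ i)

/-- **The main theorem.** -/
theorem main (h1 : TaskONE) (h2 : TaskTWO) (h3 : TaskTHREE) (h4 : TaskFOUR) (hX : TaskEXT)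
    (hB : TaskBC) (hI : TaskITR) {k : Type} [Field k] [Algebra k ℂ] {n κ r : ℕ} (hr : 2 ≤ r)
    (f : MvPolynomial (Fin n) k) (hf : f.totalDegree ≠ 0)
    (v : Fin r → Fin (n + (κ + κ)) → ℕ) (hv : Ind v) (c : Fin r → k) (hc : ∀ j, c j ≠ 0)
    (φ : MvPolynomial (Fin (n + (κ + κ))) k ≃ₐ[k] MvPolynomial (Fin (n + (κ + κ))) k)
    (hφ : φ (stabK f κ) = spa v c) :
    ∃ S : Finset (ℤ × ℤ),
      (∀ p ∈ S, 0 < p.2 ∧ (p = (-1, 1) ∨ (∃ a : Fin (n + (κ + κ)) → ℕ, IsRay v a ∧
          0 < gord v a ∧ p = (-((∑ i, a i : ℕ) : ℤ) + κ * (gord v a : ℤ), (gord v a : ℤ))) ∨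
          ∃ a : Fin (n + (κ + κ) + 2) → ℕ, IsRay (exyz v) a ∧
          0 < gord (exyz v) a ∧ p = (-((∑ i, a i : ℕ) : ℤ) + ((κ + 1 : ℕ) : ℤ) *
            (gord (exyz v) a : ℤ), (gord (exyz v) a : ℤ))) ∧
        ∀ b : Polynomial ℂ, IsBFunction (map (algebraMap k ℂ) f) b →
          b.eval ((p.1 : ℂ) / p.2) = 0) ∧
      ∀ (K : Type) [Field K] [Algebra k K] (W : Set (Pt K (Fin n)))
        (E : Set (AlgebraicClosure K)), Constr W → Good E →
        zetaG (map (algebraMap k K) f) W E ∈ ratRing K S := by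
  classical
  set fC : MvPolynomial (Fin n) ℂ := map (algebraMap k ℂ) f with hfC
  have hfC0 : fC.totalDegree ≠ 0 := by
    rw [hfC, totalDegree, support_map_of_injective _ (algebraMap k ℂ).injective]
    exact hf
  set cC : Fin r → ℂ := fun j => algebraMap k ℂ (c j) with hcC
  have hcC0 : ∀ j, cC j ≠ 0 := fun j => (map_ne_zero _).2 (hc j)
  have hbec : BecomesG fC κ (spa v cC) := by
    obtain ⟨ψ, hψ⟩ := hB k ℂ φ
    refine ⟨ψ, ?_⟩
    have e1 : stab fC κ = map (algebraMap k ℂ) (stabK f κ) := by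
      rw [map_stabK]
      rfl
    rw [e1, hψ, hφ, map_spa]
  -- the b-functions
  have hb1 : ∀ c' : Polynomial ℂ, IsBFunction fC ((Polynomial.X + 1) * c') →
      IsBFunction (spa v cC) ((Polynomial.X + 1) *
        c'.comp (Polynomial.X + Polynomial.C (κ : ℂ))) := fun c' h =>
    (becomes_global hfC0 h hbec).2 c' rfl
  have hst : stab (spa v cC) 1 = spa (exyz v) (fun j => algebraMap k ℂ (cyz c j)) := by
    rw [cyz_map, spa_addyz]
    unfold stab addyz
    rw [Fin.sum_univ_one]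
    rfl
  have hb2 : ∀ c' : Polynomial ℂ, IsBFunction fC ((Polynomial.X + 1) * c') →
      IsBFunction (spa (exyz v) (fun j => algebraMap k ℂ (cyz c j))) ((Polynomial.X + 1) *
        (c'.comp (Polynomial.X + Polynomial.C (κ : ℂ))).comp
          (Polynomial.X + Polynomial.C ((1 : ℕ) : ℂ))) := by
    intro c' h
    have h5 := (becomes_global (k := 1) (G := stab (spa v cC) 1) (spa_deg hr v hv cC hcC0)
      (hb1 c' h) ⟨AlgEquiv.refl, rfl⟩).2 _ rfl
    rw [hst] at h5
    exact h5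
  obtain ⟨S1, hS1, hz1⟩ := ind_fst h4 hr v hv c hc
    (fun P => ∃ c' : Polynomial ℂ, IsBFunction fC ((Polynomial.X + 1) * c') ∧
      P = c'.comp (Polynomial.X + Polynomial.C (κ : ℂ)))
    (by
      rintro P ⟨c', h, rfl⟩
      exact hb1 c' h)
  obtain ⟨S2, hS2, hz2⟩ := ind_fst h4 (by omega : 2 ≤ r + 1) (exyz v) (ind_exyz hv) (cyz c)
    (cyz_ne hc)
    (fun P => ∃ c' : Polynomial ℂ, IsBFunction fC ((Polynomial.X + 1) * c') ∧
      P = (c'.comp (Polynomial.X + Polynomial.C (κ : ℂ))).comp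
          (Polynomial.X + Polynomial.C ((1 : ℕ) : ℂ)))
    (by
      rintro P ⟨c', h, rfl⟩
      exact hb2 c' h)
  set S : Finset (ℤ × ℤ) := insert (-1, 1) (S1.image (fun q => (q.1 + κ * q.2, q.2)) ∪
    S2.image (fun q => (q.1 + ((κ + 1 : ℕ) : ℤ) * q.2, q.2))) with hS
  refine ⟨S, fun p hp => ?_, fun K _ _ W E hW hE => ?_⟩
  · rcases Finset.mem_insert.1 hp with rfl | hp
    · refine ⟨by norm_num, Or.inl rfl, fun b hb => ?_⟩
      have h5 := (becomes_global hfC0 hb hbec).1
      have h6 : (((-1 : ℤ) : ℂ) / ((1 : ℤ) : ℂ)) = -1 := by norm_num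
      simp only [h6]
      exact h5
    · rcases Finset.mem_union.1 hp with hp | hp
      · obtain ⟨q, hq, rfl⟩ := Finset.mem_image.1 hp
        obtain ⟨-, hq2, ⟨a, ha, hg, rfl⟩, hq4⟩ := hS1 q hq
        refine ⟨hq2, Or.inr (Or.inl ⟨a, ha, hg, rfl⟩), fun b hb => ?_⟩
        have h5 := (becomes_global hfC0 hb hbec).1
        obtain ⟨c', hc'⟩ : (Polynomial.X + 1 : Polynomial ℂ) ∣ b := by
          have := Polynomial.dvd_iff_isRoot.2 h5
          simpa using this
        have h6 := hq4 _ ⟨c', hc' ▸ hb, rfl⟩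
        rw [Polynomial.eval_comp] at h6
        rw [hc', Polynomial.eval_mul]
        have h7 : ((gord v a : ℤ) : ℂ) ≠ 0 := by
          exact_mod_cast (Nat.pos_iff_ne_zero.1 hg)
        have h8 : (((-((∑ i, a i : ℕ) : ℤ) + κ * (gord v a : ℤ) : ℤ) : ℂ) /
            ((gord v a : ℤ) : ℂ)) = Polynomial.eval (((-((∑ i, a i : ℕ) : ℤ) : ℤ) : ℂ) /
            ((gord v a : ℤ) : ℂ)) (Polynomial.X + Polynomial.C (κ : ℂ)) := by
          rw [Polynomial.eval_add, Polynomial.eval_X, Polynomial.eval_C]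
          push_cast at h7 ⊢
          rw [add_div, mul_div_assoc, div_self h7, mul_one]
        simp only
        rw [h8, h6, mul_zero]
      · obtain ⟨q, hq, rfl⟩ := Finset.mem_image.1 hp
        obtain ⟨-, hq2, ⟨a, ha, hg, rfl⟩, hq4⟩ := hS2 q hq
        refine ⟨hq2, Or.inr (Or.inr ⟨a, ha, hg, rfl⟩), fun b hb => ?_⟩
        have h5 := (becomes_global hfC0 hb hbec).1
        obtain ⟨c', hc'⟩ : (Polynomial.X + 1 : Polynomial ℂ) ∣ b := by
          have := Polynomial.dvd_iff_isRoot.2 h5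
          simpa using this
        have h6 := hq4 _ ⟨c', hc' ▸ hb, rfl⟩
        rw [Polynomial.eval_comp, Polynomial.eval_comp] at h6
        rw [hc', Polynomial.eval_mul]
        have h7 : ((gord (exyz v) a : ℤ) : ℂ) ≠ 0 := by
          exact_mod_cast (Nat.pos_iff_ne_zero.1 hg)
        have h8 : (((-((∑ i, a i : ℕ) : ℤ) + ((κ + 1 : ℕ) : ℤ) * (gord (exyz v) a : ℤ) : ℤ) : ℂ) /
            ((gord (exyz v) a : ℤ) : ℂ)) = Polynomial.eval (Polynomial.eval
              (((-((∑ i, a i : ℕ) : ℤ) : ℤ) : ℂ) / ((gord (exyz v) a : ℤ) : ℂ))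
              (Polynomial.X + Polynomial.C ((1 : ℕ) : ℂ)))
              (Polynomial.X + Polynomial.C (κ : ℂ)) := by
          rw [Polynomial.eval_add, Polynomial.eval_X, Polynomial.eval_C, Polynomial.eval_add,
            Polynomial.eval_X, Polynomial.eval_C]
          push_cast at h7 ⊢
          rw [add_div, mul_div_assoc, div_self h7, mul_one]
          ring
        simp only
        rw [h8, h6, mul_zero]
  · have hK : CharZero K := by
      have hkc : CharZero k := RingHom.charZero (algebraMap k ℂ)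
      exact charZero_of_injective_algebraMap (algebraMap k K).injective
    have hE' : CE E := ce_good hE
    set fK : MvPolynomial (Fin n) K := map (algebraMap k K) f with hfK
    obtain ⟨ψ1, hψ1⟩ := hI K fK κ
    obtain ⟨ψ2, hψ2⟩ := hB k K φ
    set ψ := ψ1.trans ψ2 with hψ
    have e1 : ψ (itr fK κ) = spa v fun j => algebraMap k K (c j) := by
      show ψ2 (ψ1 (itr fK κ)) = _
      rw [hψ1, hfK, ← map_stabK, hψ2, hφ, map_spa]
    obtain ⟨ψ', hψ'⟩ := hX K ψ
    have e2 : ψ' (addyz (itr fK κ)) = spa (exyz v) fun j => algebraMap k K (cyz c j) := by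
      rw [hψ', e1, cyz_map, spa_addyz]
    have hW1 : Constr (Witr W κ) := constr_Witr hW κ
    have hW2 : Constr (Wyz (Witr W κ)) := constr_Wyz hW1
    have z1 := hz1 K _ E (constr_pull ψ hW1) hE
    have z2 := hz2 K _ E (constr_pull ψ' hW2) hE
    rw [← e1, zeta_iso h3 (by ring) ψ _ hW1 hE'] at z1
    rw [← e2, zeta_iso h3 (by ring) ψ' _ hW2 hE'] at z2
    have z3 := descend h1 h2 fK hW hE' κ S1 S2 (fun p hp => (hS1 p hp).2.1)
      (fun p hp => (hS2 p hp).2.1) z1 z2
    refine ratRing_mono ?_ (zeta_of_fst fK W E _ z3)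
    rintro p (rfl | ⟨q, hq, rfl⟩ | ⟨q, hq, rfl⟩)
    · exact Finset.mem_coe.2 (Finset.mem_insert_self _ _)
    · exact Finset.mem_coe.2 (Finset.mem_insert_of_mem (Finset.mem_union_left _
        (Finset.mem_image_of_mem (fun q : ℤ × ℤ => (q.1 + (κ : ℤ) * q.2, q.2)) hq)))
    · exact Finset.mem_coe.2 (Finset.mem_insert_of_mem (Finset.mem_union_right _
        (Finset.mem_image_of_mem (fun q : ℤ × ℤ => (q.1 + ((κ + 1 : ℕ) : ℤ) * q.2, q.2)) hq)))

end Pool.Agent.Y229.MS
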