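import Pool.Agent.Y229.MS.Alg

/-!
# The relations between the generating series of `f` and `f + y z`
-/

set_option autoImplicit false

namespace Pool.Agent.Y229.MS

open Pool.Agent.W428.MOT
open Pool.Agent.W375.MG (JetG zetaG Good)
open Pool.Agent.W63.MTFin (mapMeas geo_mul X_mem C_mem L_mul)

section
variable {K : Type} [Field K] {n : ℕ} {R : Type} [CommRing R]

/-- the zeta function -/
noncomputable def zs (M : Meas K R) (Y : R) (f : MvPolynomial (Fin n) K) (W : Set (Pt K (Fin n)))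
    (E : Set (AlgebraicClosure K)) : PowerSeries R :=
  PowerSeries.mk fun N => M.χ _ (JetG f W E N) * Y ^ (n * N)

/-- the tails -/
noncomputable def phiS (M : Meas K R) (Y : R) (f : MvPolynomial (Fin n) K)
    (W : Set (Pt K (Fin n))) : PowerSeries R :=
  PowerSeries.mk fun i => M.χ _ (Tl f W i i) * Y ^ (n * i)

theorem chi_pt (M : Meas K R) : M.χ (Fin 1) {a : Pt K (Fin 1) | a 0 ∈ ({0} : Set _)} = 1 := by
  rw [← M.point (ι := Fin 0)]
  have hc : Constr {a : Pt K (Fin 1) | a 0 ∈ ({0} : Set (AlgebraicClosure K))} :=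
    ce_zero _ (IsPF.coord 0)
  refine M.iso _ _ hc Constr.univ (fun _ i => i.elim0) (fun _ _ => 0)
    (regularOn_poly (fun i => i.elim0) _) (regularOn_poly (fun _ => IsPF.zero) _) ?_ ?_ ?_ ?_
  · intro z _
    exact Set.mem_univ _
  · intro z _
    exact Set.mem_singleton _
  · intro z hz
    funext i
    rw [Subsingleton.elim i 0]
    exact (Set.mem_singleton_iff.1 hz).symm
  · intro w _
    funext i
    exact i.elim0

theorem tl_succ (f : MvPolynomial (Fin n) K) (W : Set (Pt K (Fin n))) (N : ℕ) :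
    Tl f W (N + 1) N = JetG f W {0} N := by
  ext z
  simp only [Tl, JetG, Set.mem_ofPred_eq, Set.mem_singleton_iff]
  refine and_congr_right fun _ => ⟨fun h => ⟨fun j hj => h j (by omega), h N (by omega)⟩, ?_⟩
  rintro ⟨h1, h2⟩ j hj
  by_cases h : j = N
  · rw [h]
    exact h2
  · exact h1 j (by omega)

theorem tl_zero (f : MvPolynomial (Fin n) K) (W : Set (Pt K (Fin n))) :
    JetG f W Set.univ 0 = Tl f W 0 0 := by
  ext z
  simp only [Tl, JetG, Set.mem_ofPred_eq, Set.mem_univ, and_true, Nat.not_lt_zero,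
    IsEmpty.forall_iff, implies_true]

theorem phi_level (h2 : TaskTWO) (M : Meas K R) (Y : R) (hL : M.L * Y = 1)
    (f : MvPolynomial (Fin n) K) (W : Set (Pt K (Fin n))) (hW : Constr W) (i : ℕ) :
    ∀ d : ℕ, M.χ _ (Tl f W i (i + d)) * Y ^ (n * (i + d)) = M.χ _ (Tl f W i i) * Y ^ (n * i) := by
  intro d
  induction d with
  | zero => rfl
  | succ d ih =>
    rw [← ih, ← add_assoc, h2 K R M f W hW i (i + d) (by omega)]
    have h3 : M.L ^ n * Y ^ n = 1 := by rw [← mul_pow, hL, one_pow]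
    rw [show n * (i + d + 1) = n + n * (i + d) by ring, pow_add]
    linear_combination (M.χ _ (Tl f W i (i + d)) * Y ^ (n * (i + d))) * h3

theorem phi_level' (h2 : TaskTWO) (M : Meas K R) (Y : R) (hL : M.L * Y = 1)
    (f : MvPolynomial (Fin n) K) (W : Set (Pt K (Fin n))) (hW : Constr W) (i N : ℕ) (h : i ≤ N) :
    M.χ _ (Tl f W i N) * Y ^ (n * N) = M.χ _ (Tl f W i i) * Y ^ (n * i) := by
  obtain ⟨d, rfl⟩ := Nat.exists_eq_add_of_le h
  exact phi_level h2 M Y hL f W hW i d

theorem phi_succ (h2 : TaskTWO) (M : Meas K R) (Y : R) (hL : M.L * Y = 1)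
    (f : MvPolynomial (Fin n) K) (W : Set (Pt K (Fin n))) (hW : Constr W) (N : ℕ) :
    M.χ _ (Tl f W (N + 1) (N + 1)) * Y ^ (n * (N + 1)) = M.χ _ (JetG f W {0} N) * Y ^ (n * N) := by
  rw [h2 K R M f W hW (N + 1) N le_rfl, tl_succ]
  have h3 : M.L ^ n * Y ^ n = 1 := by rw [← mul_pow, hL, one_pow]
  rw [show n * (N + 1) = n + n * N by ring, pow_add]
  linear_combination (M.χ _ (JetG f W {0} N) * Y ^ (n * N)) * h3

/-- partial sums -/
noncomputable def psum (P : PowerSeries R) : PowerSeries R :=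
  PowerSeries.mk fun N => ∑ i ∈ Finset.range (N + 1), PowerSeries.coeff i P

theorem psum_mul (P : PowerSeries R) : psum P * (1 - PowerSeries.X) = P := by
  have h1 : (PowerSeries.mk 1 : PowerSeries R) * (1 - PowerSeries.X) = 1 :=
    PowerSeries.mk_one_mul_one_sub_eq_one R
  have h2 : psum P = P * PowerSeries.mk 1 := by
    ext N
    rw [psum, PowerSeries.coeff_mk, PowerSeries.coeff_mul,
      Finset.Nat.sum_antidiagonal_eq_sum_range_succ_mk]
    refine Finset.sum_congr rfl fun i _ => ?_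
    rw [PowerSeries.coeff_mk, Pi.one_apply, mul_one]
  rw [h2, mul_assoc, h1, mul_one]

theorem constr_Wyz {W : Set (Pt K (Fin n))} (hW : Constr W) : Constr (Wyz W) :=
  hW.preimage (fun w i => w (Fin.castAdd 2 i)) fun _ => IsPF.coord _

/-- **The relation of the zeta functions.** -/
theorem rel1 (h1 : TaskONE) (h2 : TaskTWO) (M : Meas K R) (Y : R) (hL : M.L * Y = 1)
    (f : MvPolynomial (Fin n) K) {W : Set (Pt K (Fin n))} (hW : Constr W)
    {E : Set (AlgebraicClosure K)} (hE : CE E) :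
    PowerSeries.rescale M.L (zs M Y (addyz f) (Wyz W) E) =
      PowerSeries.C M.L * zs M Y f W E +
        PowerSeries.C (M.χ (Fin 1) {a | a 0 ∈ E} * (M.L - 1)) * psum (phiS M Y f W) := by
  ext N
  rw [PowerSeries.coeff_rescale, map_add, PowerSeries.coeff_C_mul, PowerSeries.coeff_C_mul, zs, zs,
    psum, PowerSeries.coeff_mk, PowerSeries.coeff_mk, PowerSeries.coeff_mk,
    h1 K R M f W E hW hE N]
  have h3 : ∑ i ∈ Finset.range (N + 1), PowerSeries.coeff i (phiS M Y f W) =
      (∑ i ∈ Finset.range (N + 1), M.χ _ (Tl f W i N)) * Y ^ (n * N) := by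
    rw [Finset.sum_mul]
    refine Finset.sum_congr rfl fun i hi => ?_
    rw [phiS, PowerSeries.coeff_mk, phi_level' h2 M Y hL f W hW i N
      (Nat.lt_succ_iff.1 (Finset.mem_range.1 hi))]
  rw [h3]
  have h4 : M.L ^ N * Y ^ N = 1 := by rw [← mul_pow, hL, one_pow]
  have h5 : Y ^ ((n + 2) * N) = Y ^ (n * N) * (Y ^ N * Y ^ N) := by
    rw [← pow_add, ← pow_add]
    congr 1
    ring
  rw [h5, pow_succ]
  set A := M.χ _ (JetG f W E N)
  set B := ∑ i ∈ Finset.range (N + 1), M.χ _ (Tl f W i N)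
  set e := M.χ (Fin 1) {a | a 0 ∈ E}
  linear_combination ((A * M.L + e * (M.L - 1) * B) * Y ^ (n * N) *
    (M.L ^ N * Y ^ N + 1)) * h4

/-- **The relation of the tails.** -/
theorem rel2 (h1 : TaskONE) (h2 : TaskTWO) (M : Meas K R) (Y : R) (hL : M.L * Y = 1)
    (f : MvPolynomial (Fin n) K) {W : Set (Pt K (Fin n))} (hW : Constr W) :
    PowerSeries.rescale M.L (phiS M Y (addyz f) (Wyz W)) =
      PowerSeries.C M.L * PowerSeries.C M.L * phiS M Y f W +
        PowerSeries.C (M.L * (M.L - 1)) * (PowerSeries.X * psum (phiS M Y f W)) := by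
  ext N
  rw [PowerSeries.coeff_rescale, map_add, mul_assoc, PowerSeries.coeff_C_mul,
    PowerSeries.coeff_C_mul, PowerSeries.coeff_C_mul]
  rcases N with _ | N
  · rw [PowerSeries.coeff_zero_X_mul, mul_zero, add_zero, pow_zero, one_mul, phiS, phiS,
      PowerSeries.coeff_mk, PowerSeries.coeff_mk, mul_zero, mul_zero, pow_zero, mul_one, mul_one]
    have hU : CE (Set.univ : Set (AlgebraicClosure K)) := fun F _ => by
      simpa using Constr.univ (K := K)
    have h3 := h1 K R M f W Set.univ hW hU 0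
    have h4 : M.χ (Fin 1) {a : Pt K (Fin 1) | a 0 ∈ (Set.univ : Set (AlgebraicClosure K))} =
        M.L := by
      unfold Meas.L
      congr 1
    rw [tl_zero, tl_zero, h4] at h3
    rw [h3, Finset.sum_range_succ, Finset.sum_range_zero]
    ring
  · rw [PowerSeries.coeff_succ_X_mul, phiS, PowerSeries.coeff_mk,
      phi_succ h2 M Y hL (addyz f) (Wyz W) (constr_Wyz hW) N, h1 K R M f W {0} hW ce_zero N,
      chi_pt, psum, PowerSeries.coeff_mk]
    have h3 : ∑ i ∈ Finset.range (N + 1), PowerSeries.coeff i (phiS M Y f W) =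
        (∑ i ∈ Finset.range (N + 1), M.χ _ (Tl f W i N)) * Y ^ (n * N) := by
      rw [Finset.sum_mul]
      refine Finset.sum_congr rfl fun i hi => ?_
      rw [phiS, PowerSeries.coeff_mk, phi_level' h2 M Y hL f W hW i N
        (Nat.lt_succ_iff.1 (Finset.mem_range.1 hi))]
    rw [h3, phiS, PowerSeries.coeff_mk, phi_succ h2 M Y hL f W hW N]
    have h4 : M.L ^ N * Y ^ N = 1 := by rw [← mul_pow, hL, one_pow]
    have h5 : Y ^ ((n + 2) * N) = Y ^ (n * N) * (Y ^ N * Y ^ N) := by
      rw [← pow_add, ← pow_add]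
      congr 1
      ring
    rw [h5, pow_succ]
    set A := M.χ _ (JetG f W {0} N)
    set B := ∑ i ∈ Finset.range (N + 1), M.χ _ (Tl f W i N)
    linear_combination ((A * M.L + (M.L - 1) * B) * Y ^ (n * N) * M.L *
      (M.L ^ N * Y ^ N + 1)) * h4

end

end Pool.Agent.Y229.MS
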