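import Pool.Agent.Y229.MS.Rel
import Pool.Agent.W375.MG.Out

/-!
# Descent of rationality
-/

set_option autoImplicit false

namespace Pool.Agent.Y229.MS

open Pool.Agent.W428.MOT
open Pool.Agent.W375.MG (JetG zetaG Good ratRing_mono)
open Pool.Agent.W63.MTFin (mapMeas geo_mul geo_mem X_mem C_mem L_mul)

variable {K : Type} [Field K]

/-- the shift of the pairs -/
def shn (κ : ℕ) (S : Set (ℤ × ℤ)) : Set (ℤ × ℤ) := {p | ∃ q ∈ S, p = (q.1 + κ * q.2, q.2)}

theorem shn_pos {κ : ℕ} {S : Set (ℤ × ℤ)} (hS : ∀ p ∈ S, 0 < p.2) : ∀ p ∈ shn κ S, 0 < p.2 := by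
  rintro p ⟨q, hq, rfl⟩
  exact hS q hq

theorem rescale_geo (a b : ℤ) (hb : 0 < b) :
    PowerSeries.rescale ((Lu K : (MK K)ˣ) : MK K) (geo K a b) = geo K (a + b) b := by
  have h1 := congrArg (PowerSeries.rescale ((Lu K : (MK K)ˣ) : MK K)) (geo_mul (K := K) a b hb)
  have h2 := geo_mul (K := K) (a + b) b hb
  have h3 : PowerSeries.C (((Lu K) ^ a : (MK K)ˣ) : MK K) *
      (PowerSeries.C ((Lu K : (MK K)ˣ) : MK K) * PowerSeries.X) ^ b.toNat =
      PowerSeries.C (((Lu K) ^ (a + b) : (MK K)ˣ) : MK K) * PowerSeries.X ^ b.toNat := by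
    have h4 : (((Lu K) ^ (a + b) : (MK K)ˣ) : MK K) =
        (((Lu K) ^ a : (MK K)ˣ) : MK K) * ((Lu K : (MK K)ˣ) : MK K) ^ b.toNat := by
      rw [← Units.val_pow_eq_pow_val, ← Units.val_mul, ← zpow_natCast, ← zpow_add,
        Int.toNat_of_nonneg hb.le]
    rw [h4, mul_pow, map_mul, map_pow]
    ring
  rw [map_mul, map_one, map_sub, map_one, map_mul, rescale_C', map_pow, rescale_X', h3] at h1
  calc PowerSeries.rescale ((Lu K : (MK K)ˣ) : MK K) (geo K a b)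
      = ((1 - PowerSeries.C (((Lu K) ^ (a + b) : (MK K)ˣ) : MK K) * PowerSeries.X ^ b.toNat) *
          geo K (a + b) b) * PowerSeries.rescale ((Lu K : (MK K)ˣ) : MK K) (geo K a b) := by
        rw [h2, one_mul]
    _ = geo K (a + b) b *
        ((1 - PowerSeries.C (((Lu K) ^ (a + b) : (MK K)ˣ) : MK K) * PowerSeries.X ^ b.toNat) *
          PowerSeries.rescale ((Lu K : (MK K)ˣ) : MK K) (geo K a b)) := by ring
    _ = geo K (a + b) b := by rw [h1, mul_one]

theorem rescale_mem {S : Set (ℤ × ℤ)} (hS : ∀ p ∈ S, 0 < p.2) {z : PowerSeries (MK K)}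
    (hz : z ∈ ratRing K S) :
    PowerSeries.rescale ((Lu K : (MK K)ˣ) : MK K) z ∈ ratRing K (shn 1 S) := by
  unfold ratRing at hz
  refine Algebra.adjoin_induction (p := fun z _ =>
    PowerSeries.rescale ((Lu K : (MK K)ˣ) : MK K) z ∈ ratRing K (shn 1 S)) ?_ ?_ ?_ ?_ hz
  · rintro x (hx | ⟨p, hp, rfl⟩)
    · rw [Set.mem_singleton_iff] at hx
      rw [hx, rescale_X']
      exact (ratRing K _).mul_mem (C_mem _ _) (X_mem _)
    · rw [rescale_geo _ _ (hS p hp)]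
      refine geo_mem (p := (p.1 + p.2, p.2)) ⟨p, hp, ?_⟩
      push_cast
      rw [one_mul]
  · intro r
    rw [PowerSeries.algebraMap_apply, Algebra.algebraMap_self, RingHom.id_apply, rescale_C']
    exact C_mem _ _
  · intro x y _ _ hx hy
    rw [map_add]
    exact (ratRing K _).add_mem hx hy
  · intro x y _ _ hx hy
    rw [map_mul]
    exact (ratRing K _).mul_mem hx hy

/-- the factor of the strict transform -/
noncomputable def fst' (K : Type) [Field K] : PowerSeries (MK K) :=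
  1 - PowerSeries.C (((Lu K)⁻¹ : (MK K)ˣ) : MK K) * PowerSeries.X

/-- **One step.** -/
theorem step [CharZero K] (h1 : TaskONE) (h2 : TaskTWO) {n : ℕ} (f : MvPolynomial (Fin n) K)
    {W : Set (Pt K (Fin n))} (hW : Constr W) {E : Set (AlgebraicClosure K)} (hE : CE E)
    {S1 S2 : Set (ℤ × ℤ)} (hS1 : ∀ p ∈ S1, 0 < p.2) (hS2 : ∀ p ∈ S2, 0 < p.2)
    (hz1 : fst' K * zetaG (addyz f) (Wyz W) E ∈ ratRing K S1)
    (hz2 : fst' K * zetaG (addyz (addyz f)) (Wyz (Wyz W)) E ∈ ratRing K S2) :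
    fst' K * zetaG f W E ∈ ratRing K (shn 1 S1 ∪ shn 1 (shn 1 S2)) := by
  obtain ⟨M₀, hM₀⟩ := Pool.Agent.W417.MT.K0.main K
  set M := mapMeas M₀ (algebraMap (K0 K) (MK K)) with hM
  set Y : MK K := (((Lu K)⁻¹ : (MK K)ˣ) : MK K) with hY
  have hL : M.L * Y = 1 := L_mul hM₀
  have hML : M.L = ((Lu K : (MK K)ˣ) : MK K) := by
    have h2 : ((Lu K : (MK K)ˣ) : MK K) * Y = 1 := Units.mul_inv _
    calc M.L = M.L * (((Lu K : (MK K)ˣ) : MK K) * Y) := by rw [h2, mul_one]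
      _ = (M.L * Y) * ((Lu K : (MK K)ˣ) : MK K) := by ring
      _ = _ := by rw [hL, one_mul]
  have hz : ∀ {a : ℕ} (g : MvPolynomial (Fin a) K) (V : Set (Pt K (Fin a))),
      zetaG g V E = zs M Y g V E := by
    intro a g V
    ext N
    rw [zetaG, zs, PowerSeries.coeff_mk, PowerSeries.coeff_mk, zpow_neg, zpow_natCast, ← inv_pow,
      Units.val_pow_eq_pow_val, ← hM₀]
    rfl
  have r0 := rel1 h1 h2 M Y hL f hW hE
  have r1 := rel1 h1 h2 M Y hL (addyz f) (constr_Wyz hW) hE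
  have r2 := rel2 h1 h2 M Y hL f hW
  set e : MK K := M.χ (Fin 1) {a | a 0 ∈ E} * (M.L - 1) with he
  have hps := psum_mul (phiS M Y f W)
  have hps1 := psum_mul (phiS M Y (addyz f) (Wyz W))
  have key := elim M.L Y hL (zs M Y f W E) (zs M Y (addyz f) (Wyz W) E)
    (zs M Y (addyz (addyz f)) (Wyz (Wyz W)) E) (PowerSeries.C e * phiS M Y f W)
    (PowerSeries.C e * phiS M Y (addyz f) (Wyz W))
    (by
      rw [r0]
      linear_combination (PowerSeries.C e) * hps)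
    (by
      rw [r1]
      linear_combination (PowerSeries.C e) * hps1)
    (by
      rw [map_mul, rescale_C', r2]
      rw [map_mul PowerSeries.C M.L (M.L - 1), map_sub PowerSeries.C M.L 1, map_one]
      linear_combination (PowerSeries.C e * PowerSeries.C M.L * (PowerSeries.C M.L - 1) *
        PowerSeries.X) * hps)
  rw [hz] at hz1 hz2 ⊢
  unfold fst' at hz1 hz2 ⊢
  rw [← hY] at hz1 hz2 ⊢
  rw [key, hML]
  have m1 : PowerSeries.rescale ((Lu K : (MK K)ˣ) : MK K)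
      ((1 - PowerSeries.C Y * PowerSeries.X) * zs M Y (addyz f) (Wyz W) E) ∈
      ratRing K (shn 1 S1 ∪ shn 1 (shn 1 S2)) :=
    ratRing_mono Set.subset_union_left (rescale_mem hS1 hz1)
  have m2 : PowerSeries.rescale ((Lu K : (MK K)ˣ) : MK K)
      (PowerSeries.rescale ((Lu K : (MK K)ˣ) : MK K)
        ((1 - PowerSeries.C Y * PowerSeries.X) * zs M Y (addyz (addyz f)) (Wyz (Wyz W)) E)) ∈
      ratRing K (shn 1 S1 ∪ shn 1 (shn 1 S2)) :=
    ratRing_mono Set.subset_union_right (rescale_mem (shn_pos hS2) (rescale_mem hS2 hz2))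
  exact (ratRing K _).mul_mem (C_mem _ _) ((ratRing K _).sub_mem ((ratRing K _).mul_mem
    ((ratRing K _).add_mem ((ratRing K _).mul_mem (C_mem _ _) (C_mem _ _)) (C_mem _ _)) m1) m2)

/-- the origins -/
def Witr {n : ℕ} (W : Set (Pt K (Fin n))) : (j : ℕ) → Set (Pt K (Fin (n + 2 * j)))
  | 0 => W
  | j + 1 => Wyz (Witr W j)

theorem constr_Witr {n : ℕ} {W : Set (Pt K (Fin n))} (hW : Constr W) :
    ∀ j : ℕ, Constr (Witr W j)
  | 0 => hW
  | j + 1 => constr_Wyz (constr_Witr hW j)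

theorem shn_shn (a b : ℕ) (S : Set (ℤ × ℤ)) : shn a (shn b S) = shn (a + b) S := by
  ext p
  constructor
  · rintro ⟨q, ⟨q', hq', rfl⟩, rfl⟩
    refine ⟨q', hq', ?_⟩
    rw [Prod.mk.injEq]
    refine ⟨?_, rfl⟩
    push_cast
    ring
  · rintro ⟨q, hq, rfl⟩
    refine ⟨_, ⟨q, hq, rfl⟩, ?_⟩
    rw [Prod.mk.injEq]
    refine ⟨?_, rfl⟩
    push_cast
    ring

theorem shn_union (a : ℕ) (S T : Set (ℤ × ℤ)) : shn a (S ∪ T) = shn a S ∪ shn a T := by
  ext p
  constructor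
  · rintro ⟨q, hq | hq, rfl⟩
    · exact Or.inl ⟨q, hq, rfl⟩
    · exact Or.inr ⟨q, hq, rfl⟩
  · rintro (⟨q, hq, rfl⟩ | ⟨q, hq, rfl⟩)
    · exact ⟨q, Or.inl hq, rfl⟩
    · exact ⟨q, Or.inr hq, rfl⟩

/-- **Descent.** -/
theorem descend [CharZero K] (h1 : TaskONE) (h2 : TaskTWO) {n : ℕ} (f : MvPolynomial (Fin n) K)
    {W : Set (Pt K (Fin n))} (hW : Constr W) {E : Set (AlgebraicClosure K)} (hE : CE E) :
    ∀ (κ : ℕ) (S1 S2 : Set (ℤ × ℤ)), (∀ p ∈ S1, 0 < p.2) → (∀ p ∈ S2, 0 < p.2) →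
      fst' K * zetaG (itr f κ) (Witr W κ) E ∈ ratRing K S1 →
      fst' K * zetaG (addyz (itr f κ)) (Wyz (Witr W κ)) E ∈ ratRing K S2 →
      fst' K * zetaG f W E ∈ ratRing K (shn κ S1 ∪ shn (κ + 1) S2) := by
  intro κ
  induction κ with
  | zero =>
    intro S1 S2 _ _ hz1 _
    refine ratRing_mono ?_ hz1
    intro p hp
    refine Or.inl ⟨p, hp, ?_⟩
    simp
  | succ κ ih =>
    intro S1 S2 hS1 hS2 hz1 hz2
    have h3 := step h1 h2 (itr f κ) (constr_Witr hW κ) hE hS1 hS2 hz1 hz2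
    have h4 := ih (shn 1 S1 ∪ shn 1 (shn 1 S2)) S1 ?_ hS1 h3 hz1
    · rw [shn_union, shn_shn, shn_shn, shn_shn] at h4
      refine ratRing_mono ?_ h4
      rintro p ((hp | hp) | hp)
      · exact Or.inl hp
      · right
        rw [show κ + (1 + 1) = κ + 1 + 1 by ring] at hp
        exact hp
      · exact Or.inl hp
    · rintro p (hp | hp)
      · exact shn_pos hS1 p hp
      · exact shn_pos (shn_pos hS2) p hp

/-- the zeta function itself -/
theorem zeta_of_fst {n : ℕ} (f : MvPolynomial (Fin n) K) (W : Set (Pt K (Fin n)))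
    (E : Set (AlgebraicClosure K)) (S : Set (ℤ × ℤ)) (h : fst' K * zetaG f W E ∈ ratRing K S) :
    zetaG f W E ∈ ratRing K (insert (-1, 1) S) := by
  have h1 := geo_mul (K := K) (-1) 1 one_pos
  rw [show (1 : ℤ).toNat = 1 from rfl, zpow_neg_one, pow_one] at h1
  have h2 : geo K (-1) 1 * (fst' K * zetaG f W E) = zetaG f W E := by
    unfold fst'
    calc _ = ((1 - PowerSeries.C (((Lu K)⁻¹ : (MK K)ˣ) : MK K) * PowerSeries.X) * geo K (-1) 1) *
        zetaG f W E := by ring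
      _ = _ := by rw [h1, one_mul]
  rw [← h2]
  exact (ratRing K _).mul_mem (geo_mem (p := ((-1 : ℤ), (1 : ℤ))) (Set.mem_insert _ _))
    (ratRing_mono (Set.subset_insert _ _) h)

end Pool.Agent.Y229.MS
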