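import Pool.Agent.W375.MG.Defs

/-!
# Project MS: motivic zeta functions of `f` and `f + y z`

Statements of the parts about classes of jets.
-/

set_option autoImplicit false

namespace Pool.Agent.Y229.MS

open MvPolynomial Pool.Agent.W428.MOT
open Pool.Agent.W375.MG (JetG Good)

section
variable {K : Type} [Field K] {n : ℕ}

/-- `E` is a constructible set of numbers (`0 ∈ E` is allowed) -/
def CE (E : Set (AlgebraicClosure K)) : Prop :=
  ∀ {ι : Type} (F : Pt K ι → AlgebraicClosure K), IsPF F → Constr {z | F z ∈ E}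

theorem ce_good {E : Set (AlgebraicClosure K)} (h : Good E) : CE E := h.constr

theorem ce_zero : CE ({0} : Set (AlgebraicClosure K)) := fun F hF => by
  have := Constr.eqz hF
  simpa only [Set.mem_singleton_iff] using this

/-- the jets of level `N` with origin in `W` and `ord f ≥ i` -/
def Tl (f : MvPolynomial (Fin n) K) (W : Set (Pt K (Fin n))) (i N : ℕ) :
    Set (Pt K (Fin n × Fin (N + 1))) :=
  {z | (fun i => z (i, 0)) ∈ W ∧ ∀ j < i, PowerSeries.coeff j (aeval (arc z) f) = 0}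

/-- `f + y z` -/
noncomputable def addyz (f : MvPolynomial (Fin n) K) : MvPolynomial (Fin (n + 2)) K :=
  rename (Fin.castAdd 2) f + X (Fin.natAdd n 0) * X (Fin.natAdd n 1)

/-- the origins for `f + y z` -/
def Wyz (W : Set (Pt K (Fin n))) : Set (Pt K (Fin (n + 2))) :=
  {w | (fun i => w (Fin.castAdd 2 i)) ∈ W}

/-- the jets of `f + y z` with `ord y = i` -/
def Yi (n : ℕ) (i N : ℕ) : Set (Pt K (Fin (n + 2) × Fin (N + 1))) :=
  {w | (∀ j : Fin (N + 1), (j : ℕ) < i → w (Fin.natAdd n 0, j) = 0) ∧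
    ∀ j : Fin (N + 1), (j : ℕ) = i → w (Fin.natAdd n 0, j) ≠ 0}

/-- `f + y_1 z_1 + ⋯ + y_j z_j` -/
noncomputable def itr (f : MvPolynomial (Fin n) K) : (j : ℕ) → MvPolynomial (Fin (n + 2 * j)) K
  | 0 => f
  | j + 1 => addyz (itr f j)

/-- `f + ∑ y_i z_i` -/
noncomputable def stabK (f : MvPolynomial (Fin n) K) (κ : ℕ) :
    MvPolynomial (Fin (n + (κ + κ))) K :=
  rename (Fin.castAdd (κ + κ)) f +
    ∑ i : Fin κ, X (Fin.natAdd n (Fin.castAdd κ i)) * X (Fin.natAdd n (Fin.natAdd κ i))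

end

/-- (ONEA) the part `ord y = i` -/
def TaskONEA : Prop :=
  ∀ (K : Type) [Field K] (R : Type) [CommRing R] (M : Meas K R) {n : ℕ}
    (f : MvPolynomial (Fin n) K) (W : Set (Pt K (Fin n))) (E : Set (AlgebraicClosure K)),
    Constr W → CE E → ∀ i N : ℕ, i ≤ N →
    M.χ _ (JetG (addyz f) (Wyz W) E N ∩ Yi n i N) =
      M.χ (Fin 1) {a | a 0 ∈ E} * (M.L - 1) * M.L ^ N * M.χ _ (Tl f W i N)

/-- (ONEB) the part `y = 0` -/
def TaskONEB : Prop :=
  ∀ (K : Type) [Field K] (R : Type) [CommRing R] (M : Meas K R) {n : ℕ}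
    (f : MvPolynomial (Fin n) K) (W : Set (Pt K (Fin n))) (E : Set (AlgebraicClosure K)),
    Constr W → CE E → ∀ N : ℕ,
    M.χ _ (JetG (addyz f) (Wyz W) E N ∩ {w | ∀ j, w (Fin.natAdd n 0, j) = 0}) =
      M.χ _ (JetG f W E N) * M.L ^ (N + 1)

/-- (ONE) the class of the jets of `f + y z` -/
def TaskONE : Prop :=
  ∀ (K : Type) [Field K] (R : Type) [CommRing R] (M : Meas K R) {n : ℕ}
    (f : MvPolynomial (Fin n) K) (W : Set (Pt K (Fin n))) (E : Set (AlgebraicClosure K)),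
    Constr W → CE E → ∀ N : ℕ,
    M.χ _ (JetG (addyz f) (Wyz W) E N) = M.χ _ (JetG f W E N) * M.L ^ (N + 1) +
      M.χ (Fin 1) {a | a 0 ∈ E} * (M.L - 1) * M.L ^ N *
        ∑ i ∈ Finset.range (N + 1), M.χ _ (Tl f W i N)

/-- (TWO) one more coefficient -/
def TaskTWO : Prop :=
  ∀ (K : Type) [Field K] (R : Type) [CommRing R] (M : Meas K R) {n : ℕ}
    (f : MvPolynomial (Fin n) K) (W : Set (Pt K (Fin n))), Constr W → ∀ i N : ℕ, i ≤ N + 1 →
    M.χ _ (Tl f W i (N + 1)) = M.χ _ (Tl f W i N) * M.L ^ n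

/-- (THREE) the classes of jets are invariant under isomorphisms -/
def TaskTHREE : Prop :=
  ∀ (K : Type) [Field K] (R : Type) [CommRing R] (M : Meas K R) {a b : ℕ}
    (ψ : MvPolynomial (Fin a) K ≃ₐ[K] MvPolynomial (Fin b) K) (f : MvPolynomial (Fin a) K)
    (W : Set (Pt K (Fin a))) (E : Set (AlgebraicClosure K)), Constr W → CE E → ∀ N : ℕ,
    M.χ _ (JetG (ψ f) {w | (fun i => aeval w (ψ (X i))) ∈ W} E N) = M.χ _ (JetG f W E N)

/-- (EXT) extension by two variables -/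
def TaskEXT : Prop :=
  ∀ (K : Type) [Field K] {a b : ℕ} (ψ : MvPolynomial (Fin a) K ≃ₐ[K] MvPolynomial (Fin b) K),
    ∃ ψ' : MvPolynomial (Fin (a + 2)) K ≃ₐ[K] MvPolynomial (Fin (b + 2)) K,
      ∀ f, ψ' (addyz f) = addyz (ψ f)

/-- (BC) extension of the field -/
def TaskBC : Prop :=
  ∀ (k K : Type) [Field k] [Field K] [Algebra k K] {a b : ℕ}
    (ψ : MvPolynomial (Fin a) k ≃ₐ[k] MvPolynomial (Fin b) k),
    ∃ ψ' : MvPolynomial (Fin a) K ≃ₐ[K] MvPolynomial (Fin b) K,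
      ∀ f, ψ' (map (algebraMap k K) f) = map (algebraMap k K) (ψ f)

/-- (ITR) the two forms of `f + ∑ y_i z_i` -/
def TaskITR : Prop :=
  ∀ (K : Type) [Field K] {n : ℕ} (f : MvPolynomial (Fin n) K) (κ : ℕ),
    ∃ ψ : MvPolynomial (Fin (n + 2 * κ)) K ≃ₐ[K] MvPolynomial (Fin (n + (κ + κ))) K,
      ψ (itr f κ) = stabK f κ

/-- (GK) the automorphism for graphs -/
def TaskGK : Prop :=
  ∀ (K : Type) [Field K] {n κ : ℕ} (c : Fin κ → K), (∀ i, c i ≠ 0) →
    ∀ (p : Fin κ → MvPolynomial (Fin n) K) (Φ : MvPolynomial (Fin (n + κ)) K),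
    ∃ ψ : MvPolynomial (Fin (n + (κ + κ))) K ≃ₐ[K] MvPolynomial (Fin (n + (κ + κ))) K,
      ψ (stabK (aeval (Fin.append X fun i => C (c i)⁻¹ * p i) Φ) κ) =
        rename (Fin.addCases (Fin.castAdd (κ + κ)) fun i => Fin.natAdd n (Fin.natAdd κ i)) Φ +
          ∑ i : Fin κ, X (Fin.natAdd n (Fin.castAdd κ i)) *
            (C (c i) * X (Fin.natAdd n (Fin.natAdd κ i)) -
              rename (Fin.castAdd (κ + κ)) (p i))

end Pool.Agent.Y229.MS
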